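import Pool.Agent.W559.Et.Stm6

/-!
# The smooth projective model of the quotient of a smooth projective variety
-/

set_option autoImplicit false
set_option linter.unusedSectionVars false

open MvPolynomial AlgebraicGeometry CategoryTheory TensorProduct

universe u

namespace Pool.Agent.W460.Et

open Pool.Agent.W559.Mg Pool.Agent.W559.Et

section

variable {k L : Type u} [Field k] [Field L] [Algebra k L]

lemma pow_apply' (f : L →ₐ[k] L) (r : ℕ) (x : L) : (f ^ r) x = f^[r] x := by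
  induction r generalizing x with
  | zero => rfl
  | succ r ih =>
    rw [pow_succ, Function.iterate_succ_apply, ← ih]
    rfl

lemma pow_iterate (f : L →ₐ[k] L) (N r : ℕ) (hN : ∀ x, f^[N] x = x) (x : L) :
    (⇑(f ^ r))^[N] x = x := by
  have h1 : ⇑(f ^ r) = f^[r] := funext fun x => pow_apply' f r x
  rw [h1, ← Function.iterate_mul, mul_comm, Function.iterate_mul]
  exact Function.iterate_fixed (hN x) r

lemma FS_pow {l : ℕ} (z : Fin (l + 1) → L) {x : L} (hx : x ∈ H920R2.FS k z 1) (a : ℕ) :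
    x ^ a ∈ H920R2.FS k z a := by
  induction a with
  | zero =>
    rw [pow_zero]
    exact H920R2.FS_one z
  | succ a ih =>
    rw [pow_succ]
    exact H920R2.FS_mul z ih hx

lemma FS_prod' {l : ℕ} (z : Fin (l + 1) → L) {ι : Type} (s : Finset ι) (x : ι → L) (a : ι → ℕ)
    (hx : ∀ i ∈ s, x i ∈ H920R2.FS k z (a i)) : ∏ i ∈ s, x i ∈ H920R2.FS k z (∑ i ∈ s, a i) := by
  classical
  induction s using Finset.induction_on with
  | empty =>
    rw [Finset.prod_empty, Finset.sum_empty]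
    exact H920R2.FS_one z
  | insert i s hi ih =>
    rw [Finset.prod_insert hi, Finset.sum_insert hi]
    exact H920R2.FS_mul z (hx i (Finset.mem_insert_self i s))
      (ih fun j hj => hx j (Finset.mem_insert_of_mem hj))

lemma span_le {l : ℕ} (z : Fin (l + 1) → L) :
    Submodule.span k (Set.range z) ≤ H920R2.FS k z 1 := by
  rw [Submodule.span_le]
  rintro _ ⟨i, rfl⟩
  have h := H920R2.FS_z (k := k) z i 1
  rwa [pow_one] at h

lemma stable {l : ℕ} (z : Fin (l + 1) → L) (σ : L →ₐ[k] L)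
    (hσ : ∀ i, σ (z i) ∈ Submodule.span k (Set.range z)) {d : ℕ} {G : L} (hG : σ G = G) :
    ∀ x ∈ H920R2.AF k z d G, σ x ∈ H920R2.AF k z d G := by
  intro x hx
  unfold H920R2.AF at hx
  induction hx using Algebra.adjoin_induction with
  | mem x hx =>
    obtain ⟨y, ⟨a, ha, rfl⟩, rfl⟩ := hx
    rw [map_div₀, hG]
    apply H920R2.FS_div_mem
    rw [map_prod, ← ha]
    apply FS_prod' z
    intro i _
    rw [map_pow]
    exact FS_pow z (span_le z (hσ i)) _
  | algebraMap r =>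
    rw [AlgHom.commutes]
    exact Subalgebra.algebraMap_mem _ r
  | add x y _ _ hx hy =>
    rw [map_add]
    exact Subalgebra.add_mem _ hx hy
  | mul x y _ _ hx hy =>
    rw [map_mul]
    exact Subalgebra.mul_mem _ hx hy

lemma stable_pow {B : Subalgebra k L} {σ : L →ₐ[k] L} (h : ∀ x ∈ B, σ x ∈ B) (r : ℕ) :
    ∀ x ∈ B, (σ ^ r) x ∈ B := by
  induction r with
  | zero => intro x hx; exact hx
  | succ r ih =>
    intro x hx
    rw [pow_succ]
    exact ih _ (h x hx)

end

theorem gen_model (hmain : MainStm.{u}) (hgrp : GrpStm.{u}) (hmodel : ModelStm.{u})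
    (hsp : SpreadStm.{u}) (hpt : PtStm.{u}) (hatl : GenAtlasStm.{u}) : GenModelStm.{u} := by
  intro k L _ _ _ l z hz hsm hgen σ p m hp hpk hm hζ hN hlin hLin
  obtain ⟨γ, h, M, ω, a, b, c, hGD, hγ, -, hh, hfix, hLLt⟩ :=
    hgrp k L (σ : L →ₐ[k] L) p m hp hpk hm hζ hN
  have hm0 : 0 < m := by
    rcases Nat.eq_zero_or_pos m with h0 | h0
    · rw [h0, Nat.cast_zero] at hm
      exact absurd rfl hm
    · exact h0
  have hNpos : 0 < p * p * m := Nat.mul_pos (Nat.mul_pos hp.pos hp.pos) hm0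
  obtain ⟨N', W, hW, d, hd, G, hG, hAA, hsmG⟩ := hatl k L l z hz hsm hgen (σ : L →ₐ[k] L)
    (p * p * m) hNpos hN hlin γ h (m * a) b hγ hh hfix (H920R2.fixF σ).toSubfield
    (fun x => Iff.rfl)
  have hst : ∀ t, ∀ x ∈ H920R2.AF k z d (G t), (σ : L →ₐ[k] L) x ∈ H920R2.AF k z d (G t) :=
    fun t => stable z (σ : L →ₐ[k] L) hlin (hG t).2.2
  have hLL1 : ∀ t, LL ((σ : L →ₐ[k] L) ^ m) (H920R2.AF k z d (G t)) := by
    intro t
    refine hsp k L _ (hsmG t) _ (p * p * m) hNpos (pow_iterate _ _ m hN)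
      (stable_pow (hst t) m) ?_
    intro q hq
    obtain ⟨i, q', hq', e⟩ := hpt k L l z hz d hd (G t) (hG t).1 (hG t).2.1 q hq
    rw [e]
    exact (hLin i q' hq').1
  have hLL2 : ∀ t, LL ((σ : L →ₐ[k] L) ^ (m * p)) (H920R2.AF k z d (G t)) := by
    intro t
    refine hsp k L _ (hsmG t) _ (p * p * m) hNpos (pow_iterate _ _ (m * p) hN)
      (stable_pow (hst t) (m * p)) ?_
    intro q hq
    obtain ⟨i, q', hq', e⟩ := hpt k L l z hz d hd (G t) (hG t).1 (hG t).2.1 q hq
    rw [e]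
    exact (hLin i q' hq').2
  have hLL := fun t => hLLt (H920R2.AF k z d (G t)) (hst t) (hLL1 t) (hLL2 t)
  obtain ⟨T', hT', E', C', H', hMB⟩ := hmain k L γ h p M ω hGD _ _ _ W _ _ G hAA hsmG
    (fun t => (hLL t).1) (fun t => (hLL t).2)
  obtain ⟨I, hI, z', J, hM⟩ := hmodel k L _ _ W T' E' C' H' hMB
  exact ⟨N', W, hW, I, hI, z', J, hM⟩

end Pool.Agent.W460.Et
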