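import Pool.Agent.W559.Et.Stm

/-!
# The open and closed neighbourhood of the fixed points of an automorphism
-/

set_option autoImplicit false

universe u

namespace Pool.Agent.W460.Et

open scoped TensorProduct

theorem strong : Pool.Agent.W559.Et.StrongStm.{u} := by
  intro R S _ _ _ _ J g hg N hN hgN
  set K : Ideal S := J.map (algebraMap R S) with hK
  set I : Ideal S := Ideal.span (Set.range fun b => g b - b) with hI
  -- the two homomorphisms to `S ⧸ K`
  let f₁ : S →ₐ[R] S ⧸ K := Ideal.Quotient.mkₐ R K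
  let f₂ : S →ₐ[R] S ⧸ K :=
    { (Ideal.Quotient.mk K).comp g with
      commutes' := by
        intro r
        change Ideal.Quotient.mk K (g (algebraMap R S r)) = algebraMap R (S ⧸ K) r
        have h1 : algebraMap R (S ⧸ K) r = Ideal.Quotient.mk K (algebraMap R S r) := rfl
        rw [h1, Ideal.Quotient.eq]
        exact hg r }
  have hf₁ : ∀ b, f₁ b = Ideal.Quotient.mk K b := fun b => rfl
  have hf₂ : ∀ b, f₂ b = Ideal.Quotient.mk K (g b) := fun b => rfl
  obtain ⟨Φ, hΦ⟩ : ∃ Φ : S ⊗[R] S →ₐ[R] S ⧸ K,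
      ∀ a b : S, Φ (a ⊗ₜ b) = Ideal.Quotient.mk K (a * g b) := by
    refine ⟨Algebra.TensorProduct.lift f₁ f₂ (fun _ _ => Commute.all _ _), fun a b => ?_⟩
    rw [Algebra.TensorProduct.lift_tmul, hf₁, hf₂, map_mul]
  set t : S ⊗[R] S := Algebra.FormallyUnramified.elem R S with ht
  obtain ⟨c₀, hc₀⟩ := Ideal.Quotient.mk_surjective (Φ t)
  have h1 : ∀ b, c₀ * (g b - b) ∈ K := by
    intro b
    rw [← Ideal.Quotient.eq_zero_iff_mem, map_mul, hc₀, mul_comm]
    have h2 := Algebra.FormallyUnramified.one_tmul_sub_tmul_one_mul_elem (R := R) b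
    have h3 := congrArg Φ h2
    rw [map_mul, map_sub, map_zero, hΦ, hΦ, ← map_sub, map_one, one_mul, mul_one] at h3
    exact h3
  have h2 : c₀ - 1 ∈ K ⊔ I := by
    have hle : K ≤ K ⊔ I := le_sup_left
    have hIle : I ≤ K ⊔ I := le_sup_right
    let π : S ⧸ K →ₐ[R] S ⧸ (K ⊔ I) := Ideal.Quotient.factorₐ R hle
    have h3 : π.comp Φ = (Ideal.Quotient.mkₐ R (K ⊔ I)).comp (Algebra.TensorProduct.lmul' R) := by
      apply Algebra.TensorProduct.ext'
      intro a b
      change π (Φ (a ⊗ₜ b)) = Ideal.Quotient.mk (K ⊔ I) (a * b)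
      rw [hΦ]
      change Ideal.Quotient.mk (K ⊔ I) (a * g b) = Ideal.Quotient.mk (K ⊔ I) (a * b)
      rw [Ideal.Quotient.eq, ← mul_sub]
      exact Ideal.mul_mem_left _ _ (hIle (Ideal.subset_span ⟨b, rfl⟩))
    have h4 := DFunLike.congr_fun h3 t
    change π (Φ t) = Ideal.Quotient.mk (K ⊔ I) (Algebra.TensorProduct.lmul' R t) at h4
    rw [ht, Algebra.FormallyUnramified.lmul_elem, ← ht, ← hc₀] at h4
    rw [← Ideal.Quotient.eq]
    exact h4
  have h3 : ∀ (i : ℕ) (b : S), g^[i] b - b ∈ I := by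
    intro i
    induction i with
    | zero => intro b; simp
    | succ i ih =>
      intro b
      rw [Function.iterate_succ_apply']
      have e : g (g^[i] b) - b = (g (g^[i] b) - g^[i] b) + (g^[i] b - b) := by ring
      rw [e]
      exact I.add_mem (Ideal.subset_span ⟨_, rfl⟩) (ih b)
  refine ⟨∏ i ∈ Finset.range N, g^[i] c₀, ?_, ?_, ?_⟩
  · rw [map_prod]
    have e1 : ∏ i ∈ Finset.range N, g (g^[i] c₀) = ∏ i ∈ Finset.range N, g^[i + 1] c₀ :=
      Finset.prod_congr rfl fun i _ => (Function.iterate_succ_apply' g i c₀).symm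
    rw [e1]
    obtain ⟨M, rfl⟩ : ∃ M, N = M + 1 := ⟨N - 1, by omega⟩
    rw [Finset.prod_range_succ, Finset.prod_range_succ' (fun i => g^[i] c₀)]
    rw [hgN c₀]
    rfl
  · intro b
    obtain ⟨M, rfl⟩ : ∃ M, N = M + 1 := ⟨N - 1, by omega⟩
    rw [Finset.prod_range_succ', mul_assoc]
    exact Ideal.mul_mem_left _ _ (h1 b)
  · rw [← Ideal.Quotient.eq, map_prod, map_one]
    refine Finset.prod_eq_one fun i _ => ?_
    rw [← map_one (Ideal.Quotient.mk (K ⊔ I)), Ideal.Quotient.eq]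
    have e : g^[i] c₀ - 1 = (g^[i] c₀ - c₀) + (c₀ - 1) := by ring
    rw [e]
    exact (K ⊔ I).add_mem ((le_sup_right : I ≤ K ⊔ I) (h3 i c₀)) h2

end Pool.Agent.W460.Et
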